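import Pool.Agent.Y245.FI.Core

set_option autoImplicit false

/-!
# Two Fréchet algebras without injective modules
-/

open Filter Topology

namespace Pool.Agent.Y245.FI

universe u

/-- The space of all complex sequences with the product topology and the zero multiplication. -/
def ZeroAlg : Type := ℕ → ℂ

noncomputable instance : NonUnitalCommRing ZeroAlg :=
  { (inferInstance : AddCommGroup (ℕ → ℂ)) with
    mul := fun _ _ => (0 : ℕ → ℂ)
    left_distrib := fun _ _ _ => (add_zero (0 : ℕ → ℂ)).symm
    right_distrib := fun _ _ _ => (add_zero (0 : ℕ → ℂ)).symm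
    zero_mul := fun _ => rfl
    mul_zero := fun _ => rfl
    mul_assoc := fun _ _ _ => rfl
    mul_comm := fun _ _ => rfl }

noncomputable instance : Module ℂ ZeroAlg := inferInstanceAs (Module ℂ (ℕ → ℂ))

noncomputable instance : TopologicalSpace ZeroAlg := inferInstanceAs (TopologicalSpace (ℕ → ℂ))

theorem ZeroAlg.mul_eq (a b : ZeroAlg) : a * b = 0 := rfl

theorem ZeroAlg.isFrechet : IsFrechet ZeroAlg := isFrechet_pi ℕ

theorem ZeroAlg.continuous_mul : Continuous fun p : ZeroAlg × ZeroAlg => p.1 * p.2 :=
  continuous_const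

/-- the Fréchet algebra of all complex sequences with the zero multiplication -/
noncomputable def zeroAlgebra : FrechetAlgebra where
  carrier := ZeroAlg
  isFrechet := ZeroAlg.isFrechet
  smul_mul c a b := by rw [ZeroAlg.mul_eq, ZeroAlg.mul_eq, smul_zero]
  mul_smul c a b := by rw [ZeroAlg.mul_eq, ZeroAlg.mul_eq, smul_zero]
  continuous_mul := ZeroAlg.continuous_mul

/-- the value of a sequence -/
noncomputable def ev (k : ℕ) (a : ZeroAlg) : ℂ := (show ℕ → ℂ from a) k

theorem continuous_ev (k : ℕ) : Continuous (ev k) :=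
  (continuous_apply k : Continuous fun f : ℕ → ℂ => f k)

/-- the unit vectors -/
noncomputable def unitVec (k : ℕ) : ZeroAlg := (Pi.single k 1 : ℕ → ℂ)

theorem exists_line (U : Set ZeroAlg) (hU : U ∈ 𝓝 (0 : ZeroAlg)) :
    ∃ k : ℕ, ∀ t : ℂ, t • unitVec k ∈ U := by
  by_contra hcon
  push Not at hcon
  choose t ht using hcon
  have h : Tendsto (fun k => t k • unitVec k) atTop (𝓝 (0 : ZeroAlg)) := by
    have : Tendsto (fun k => (t k • (Pi.single k 1 : ℕ → ℂ))) atTop (𝓝 (0 : ℕ → ℂ)) := by
      rw [tendsto_pi_nhds]
      intro j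
      refine tendsto_const_nhds.congr' ?_
      filter_upwards [eventually_gt_atTop j] with k hk
      simp [hk.ne]
    exact this
  obtain ⟨k, hk⟩ := (h.eventually hU).exists
  exact ht k hk

theorem not_isInjective_zeroAlg (X : FrechetModule.{u} ZeroAlg) (hX : Nontrivial X.carrier) :
    ¬ IsInjective (fun _ => True) X := by
  intro hinj
  have hact0 : ∀ x, X.act 0 x = 0 := by
    intro x
    have := X.smul_act 0 0 x
    simpa using this
  have h0act : ∀ a, X.act a 0 = 0 := by
    intro a
    have := X.act_smul 0 a 0
    simpa using this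
  -- an element which is annihilated
  have h1 : ∃ x₀ : X.carrier, x₀ ≠ 0 ∧ ∀ a, X.act a x₀ = 0 := by
    by_cases h : ∃ a x, X.act a x ≠ 0
    · obtain ⟨a, x, hax⟩ := h
      refine ⟨X.act a x, hax, fun b => ?_⟩
      rw [← X.mul_act, ZeroAlg.mul_eq, hact0]
    · push Not at h
      obtain ⟨x, hx⟩ := exists_ne (0 : X.carrier)
      exact ⟨x, hx, fun a => h a x⟩
  obtain ⟨x₀, hx₀, hann⟩ := h1
  have := X.isFrechet.topologicalAddGroup
  have := X.isFrechet.continuousSMul
  refine false_of_lines hx₀ fun U hU => ?_
  obtain ⟨k, hk⟩ := exists_line U hU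
  refine ⟨unitVec k, hk, ?_⟩
  obtain ⟨y, hy⟩ := exists_of_isInjective hinj (fun _ => 0) (fun a => ev k a • x₀)
    continuous_const ((continuous_ev k).smul continuous_const)
    (fun _ _ => (add_zero 0).symm) (fun _ _ => (mul_zero _).symm) (fun _ _ => (mul_zero _).symm)
    (fun a b => by
      have : ev k (a + b) = ev k a + ev k b := rfl
      simp only [this, add_smul])
    (fun c a => by
      have : ev k (c • a) = c * ev k a := rfl
      simp only [this, mul_smul])
    (fun a b => by
      have : ev k (a * b) = 0 := rfl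
      simp only [this, zero_smul, X.act_smul, hann, smul_zero, add_zero]) trivial
  refine ⟨y, ?_⟩
  rw [hy]
  have : ev k (unitVec k) = 1 := by
    show (Pi.single k 1 : ℕ → ℂ) k = 1
    simp
  simp only [this, one_smul, zero_smul, add_zero]

open PowerSeries PowerSeries.WithPiTopology

theorem isFrechet_powerSeries : IsFrechet (PowerSeries ℂ) := isFrechet_pi (Unit →₀ ℕ)

theorem continuous_mul_powerSeries :
    Continuous fun p : PowerSeries ℂ × PowerSeries ℂ => p.1 * p.2 := continuous_mul

/-- the Fréchet algebra of all formal power series with coefficientwise convergence -/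
noncomputable def powerSeriesAlgebra : FrechetAlgebra where
  carrier := PowerSeries ℂ
  isFrechet := isFrechet_powerSeries
  smul_mul c a b := smul_mul_assoc c a b
  mul_smul c a b := mul_smul_comm c a b
  continuous_mul := continuous_mul_powerSeries

/-- division by the variable -/
noncomputable def shift (a : PowerSeries ℂ) : PowerSeries ℂ :=
  PowerSeries.mk fun n => coeff (n + 1) a

theorem X_mul_shift (a : PowerSeries ℂ) : X * shift a = a - C (constantCoeff a) := by
  have h := PowerSeries.eq_X_mul_shift_add_const a
  rw [eq_sub_iff_add_eq]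
  exact h.symm

theorem shift_mul (a b : PowerSeries ℂ) :
    shift (a * b) = a * shift b + constantCoeff b • shift a := by
  have hX : (X : PowerSeries ℂ) ≠ 0 := X_ne_zero
  apply mul_left_cancel₀ hX
  rw [X_mul_shift, mul_add, mul_smul_comm, X_mul_shift, mul_left_comm, X_mul_shift,
    smul_eq_C_mul, map_mul, map_mul]
  ring

theorem continuous_shift : Continuous shift := by
  have h : Continuous fun a : PowerSeries ℂ => (fun n : Unit →₀ ℕ => shift a n : (Unit →₀ ℕ) → ℂ) := by
    refine continuous_pi fun n => ?_
    have h2 : (fun a : PowerSeries ℂ => shift a n) =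
        fun a : PowerSeries ℂ => coeff (n () + 1) a := by
      funext a
      have h3 : shift a n = coeff (n ()) (shift a) := by
        rw [PowerSeries.coeff]
        congr 1
        ext
        simp
      rw [h3, shift, coeff_mk]
    rw [h2]
    exact continuous_coeff ℂ _
  exact h

theorem exists_line_powerSeries (U : Set (PowerSeries ℂ)) (hU : U ∈ 𝓝 (0 : PowerSeries ℂ)) :
    ∃ k : ℕ, ∀ t : ℂ, t • (X : PowerSeries ℂ) ^ k ∈ U := by
  by_contra hcon
  push Not at hcon
  choose t ht using hcon
  have h : Tendsto (fun k => t k • (X : PowerSeries ℂ) ^ k) atTop (𝓝 (0 : PowerSeries ℂ)) := by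
    rw [tendsto_iff_coeff_tendsto]
    intro j
    refine tendsto_const_nhds.congr' ?_
    filter_upwards [eventually_gt_atTop j] with k hk
    simp [coeff_X_pow, hk.ne]
  obtain ⟨k, hk⟩ := (h.eventually hU).exists
  exact ht k hk

theorem not_isInjective_powerSeries (M : FrechetModule.{u} (PowerSeries ℂ))
    (h1 : ∀ x, M.act 1 x = x) (hM : Nontrivial M.carrier) :
    ¬ IsInjective (fun Y => ∀ y, Y.act 1 y = y) M := by
  intro hinj
  have := M.isFrechet.topologicalAddGroup
  have := M.isFrechet.continuousSMul
  have hdiv : ∀ x₀ : M.carrier, ∃ y : M.carrier, M.act X y = x₀ := by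
    intro x₀
    have hδ : Continuous fun a : PowerSeries ℂ => M.act (shift a) x₀ :=
      M.continuous_act.comp (continuous_shift.prodMk continuous_const)
    have hsh1 : shift (1 : PowerSeries ℂ) = 0 := by
      have hX : (X : PowerSeries ℂ) ≠ 0 := X_ne_zero
      apply mul_left_cancel₀ hX
      rw [X_mul_shift]
      simp
    have hshX : shift (X : PowerSeries ℂ) = 1 := by
      have hX : (X : PowerSeries ℂ) ≠ 0 := X_ne_zero
      apply mul_left_cancel₀ hX
      rw [X_mul_shift]
      simp
    have hshadd : ∀ a b : PowerSeries ℂ, shift (a + b) = shift a + shift b := by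
      intro a b
      ext n
      simp [shift]
    have hshsmul : ∀ (c : ℂ) (a : PowerSeries ℂ), shift (c • a) = c • shift a := by
      intro c a
      ext n
      simp [shift]
    obtain ⟨y, hy⟩ := exists_of_isInjective hinj (fun a => constantCoeff a)
      (fun a => M.act (shift a) x₀) (continuous_constantCoeff ℂ) hδ
      (fun a b => map_add _ a b)
      (fun c a => by
        show constantCoeff (c • a) = c * constantCoeff a
        rw [smul_eq_C_mul, map_mul, constantCoeff_C])
      (fun a b => map_mul _ a b)
      (fun a b => by simp only [hshadd, M.add_act])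
      (fun c a => by simp only [hshsmul, M.smul_act])
      (fun a b => by simp only [shift_mul, M.add_act, M.mul_act, M.smul_act])
      (by
        intro p
        show (M.act 1 p.1 + p.2 • M.act (shift 1) x₀, constantCoeff (1 : PowerSeries ℂ) * p.2) = p
        have h00 : M.act 0 x₀ = 0 := by
          have := M.smul_act 0 0 x₀
          simpa using this
        rw [h1, hsh1, h00, smul_zero, add_zero, map_one, one_mul]
        rfl)
    refine ⟨y, ?_⟩
    rw [hy, hshX, h1, constantCoeff_X, zero_smul, add_zero]
  have hpow : ∀ (k : ℕ) (x₀ : M.carrier), ∃ y : M.carrier, M.act (X ^ k) y = x₀ := by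
    intro k
    induction k with
    | zero => exact fun x₀ => ⟨x₀, by rw [pow_zero, h1]⟩
    | succ k ih =>
      intro x₀
      obtain ⟨y, hy⟩ := ih x₀
      obtain ⟨z, hz⟩ := hdiv y
      exact ⟨z, by rw [pow_succ, M.mul_act, hz, hy]⟩
  obtain ⟨x₀, hx₀⟩ := exists_ne (0 : M.carrier)
  refine false_of_lines hx₀ fun U hU => ?_
  obtain ⟨k, hk⟩ := exists_line_powerSeries U hU
  exact ⟨X ^ k, hk, hpow k x₀⟩

end Pool.Agent.Y245.FI
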