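import Pool.Agent.Y245.FI.Defs

set_option autoImplicit false

/-!
# One-dimensional extensions of Fréchet modules and divisibility in injective modules
-/

open Filter Topology

namespace Pool.Agent.Y245.FI

universe u v

variable {A : Type v} [NonUnitalRing A] [Module ℂ A] [TopologicalSpace A]

/-- The extension of the module `X` by the one-dimensional module with character `χ`, given by the
`χ`-derivation `δ` with values in `X`. -/
noncomputable def extend (X : FrechetModule.{u} A) (χ : A → ℂ) (δ : A → X.carrier)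
    (hχ : Continuous χ) (hδ : Continuous δ)
    (χ_add : ∀ a b, χ (a + b) = χ a + χ b) (χ_smul : ∀ (c : ℂ) a, χ (c • a) = c * χ a)
    (χ_mul : ∀ a b, χ (a * b) = χ a * χ b)
    (δ_add : ∀ a b, δ (a + b) = δ a + δ b) (δ_smul : ∀ (c : ℂ) a, δ (c • a) = c • δ a)
    (δ_mul : ∀ a b, δ (a * b) = X.act a (δ b) + χ b • δ a) : FrechetModule.{u} A where
  carrier := X.carrier × ℂ
  isFrechet := X.isFrechet.prod isFrechet_complex
  act a p := (X.act a p.1 + p.2 • δ a, χ a * p.2)
  add_act a b p := by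
    ext
    · simp only [X.add_act, δ_add, smul_add, Prod.fst_add]; abel
    · simp only [χ_add, add_mul, Prod.snd_add]
  act_add a p q := by
    ext
    · simp only [X.act_add, add_smul, Prod.fst_add, Prod.snd_add]; abel
    · simp only [mul_add, Prod.snd_add]
  smul_act c a p := by
    ext
    · simp only [X.smul_act, δ_smul, smul_add, Prod.smul_fst, smul_comm c p.2]
    · simp only [χ_smul, Prod.smul_snd, smul_eq_mul, mul_assoc]
  act_smul c a p := by
    ext
    · simp only [X.act_smul, smul_add, Prod.smul_fst, Prod.smul_snd, smul_eq_mul, mul_smul]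
    · simp only [Prod.smul_snd, smul_eq_mul]; ring
  mul_act a b p := by
    ext
    · simp only [X.mul_act, X.act_add, X.act_smul, δ_mul, smul_add, smul_smul]
      rw [mul_comm p.2 (χ b)]
      abel
    · simp only [χ_mul, mul_assoc]
  continuous_act := by
    have := X.isFrechet.topologicalAddGroup
    have := X.isFrechet.continuousSMul
    refine Continuous.prodMk (Continuous.add ?_ ?_) ?_
    · exact X.continuous_act.comp (continuous_fst.prodMk (continuous_fst.comp continuous_snd))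
    · exact (continuous_snd.comp continuous_snd).smul (hδ.comp continuous_fst)
    · exact (hχ.comp continuous_fst).mul (continuous_snd.comp continuous_snd)

/-- An injective module contains a solution `y` of the equations `a y = δ(a) + χ(a) y`. -/
theorem exists_of_isInjective {P : FrechetModule.{u} A → Prop} {X : FrechetModule.{u} A}
    (hX : IsInjective P X) (χ : A → ℂ) (δ : A → X.carrier)
    (hχ : Continuous χ) (hδ : Continuous δ)
    (χ_add : ∀ a b, χ (a + b) = χ a + χ b) (χ_smul : ∀ (c : ℂ) a, χ (c • a) = c * χ a)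
    (χ_mul : ∀ a b, χ (a * b) = χ a * χ b)
    (δ_add : ∀ a b, δ (a + b) = δ a + δ b) (δ_smul : ∀ (c : ℂ) a, δ (c • a) = c • δ a)
    (δ_mul : ∀ a b, δ (a * b) = X.act a (δ b) + χ b • δ a)
    (hP : P (extend X χ δ hχ hδ χ_add χ_smul χ_mul δ_add δ_smul δ_mul)) :
    ∃ y : X.carrier, ∀ a, X.act a y = δ a + χ a • y := by
  have h1 := hX _ hP (ContinuousLinearMap.inl ℂ X.carrier ℂ) (by
      intro a x
      show ((X.act a x, 0) : X.carrier × ℂ) = (X.act a x + (0 : ℂ) • δ a, χ a * 0)
      rw [zero_smul, add_zero, mul_zero])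
    ⟨ContinuousLinearMap.fst ℂ X.carrier ℂ, fun x => rfl⟩
  obtain ⟨ψ₀, hψ, hinv⟩ := h1
  obtain ⟨ψ, hψeq⟩ : ∃ ψ : (X.carrier × ℂ) →L[ℂ] X.carrier, ψ = ψ₀ := ⟨ψ₀, rfl⟩
  have hinv' : ∀ x : X.carrier, ψ ((x, 0) : X.carrier × ℂ) = x := by
    intro x
    rw [hψeq]
    exact hinv x
  refine ⟨ψ ((0, 1) : X.carrier × ℂ), fun a => ?_⟩
  have h2 : ψ ((X.act a 0 + (1 : ℂ) • δ a, χ a * 1) : X.carrier × ℂ) =
      X.act a (ψ ((0, 1) : X.carrier × ℂ)) := by
    rw [hψeq]
    exact hψ a ((0, 1) : X.carrier × ℂ)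
  have h0 : X.act a 0 = 0 := by
    have := X.act_smul 0 a 0
    simpa using this
  rw [← h2, h0, zero_add, one_smul, mul_one]
  have h3 : ((δ a, χ a) : X.carrier × ℂ) = (δ a, 0) + χ a • ((0, 1) : X.carrier × ℂ) := by
    ext <;> simp
  rw [h3, map_add, map_smul, hinv']

/-- The contradiction: a line in every neighbourhood of zero of the algebra. -/
theorem false_of_lines {X : FrechetModule.{u} A} {x₀ : X.carrier} (hx₀ : x₀ ≠ 0)
    (h : ∀ U ∈ 𝓝 (0 : A), ∃ a : A, (∀ t : ℂ, t • a ∈ U) ∧ ∃ y : X.carrier, X.act a y = x₀) :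
    False := by
  have := X.isFrechet.topologicalAddGroup
  have := X.isFrechet.continuousSMul
  have := X.isFrechet.t2
  have h0 : X.act 0 0 = 0 := by
    have := X.act_smul 0 0 0
    simpa using this
  have hN : {x₀}ᶜ ∈ 𝓝 (X.act 0 0) := by
    rw [h0]
    exact isOpen_compl_singleton.mem_nhds (by simpa using hx₀.symm)
  have h1 := X.continuous_act.continuousAt (x := ((0 : A), (0 : X.carrier))) hN
  rw [Filter.mem_map, nhds_prod_eq, Filter.mem_prod_iff] at h1
  obtain ⟨U, hU, W, hW, hUW⟩ := h1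
  obtain ⟨a, ha, y, hy⟩ := h U hU
  have h2 : Tendsto (fun s : ℂ => s • y) (𝓝 0) (𝓝 ((0 : ℂ) • y)) :=
    (continuous_id.smul continuous_const).tendsto 0
  rw [zero_smul] at h2
  have h3 : ∀ᶠ s : ℂ in 𝓝[≠] 0, s • y ∈ W := (h2.mono_left nhdsWithin_le_nhds).eventually hW
  obtain ⟨s, hs, hs0⟩ := (h3.and self_mem_nhdsWithin).exists
  have hs0 : s ≠ 0 := hs0
  have h4 : ((s⁻¹ • a, s • y) : A × X.carrier) ∈ U ×ˢ W := ⟨ha _, hs⟩
  have h5 := hUW h4
  apply h5
  show X.act (s⁻¹ • a) (s • y) ∈ ({x₀} : Set X.carrier)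
  rw [X.smul_act, X.act_smul, smul_smul, inv_mul_cancel₀ hs0, one_smul, hy]
  rfl

end Pool.Agent.Y245.FI
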