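import Mathlib

set_option autoImplicit false

/-!
# Fréchet algebras, Fréchet modules and injectivity
-/

open Filter Topology

namespace Pool.Agent.Y245.FI

universe u v

/-- `X` is a Fréchet space over `ℂ`: a Hausdorff, first countable (hence metrizable), locally
convex topological vector space in which every Cauchy sequence converges. -/
structure IsFrechet (X : Type u) [AddCommGroup X] [Module ℂ X] [TopologicalSpace X] : Prop where
  topologicalAddGroup : IsTopologicalAddGroup X
  continuousSMul : ContinuousSMul ℂ X
  t2 : T2Space X
  firstCountable : FirstCountableTopology X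
  locallyConvex : LocallyConvexSpace ℝ X
  complete : ∀ s : ℕ → X, (∀ U ∈ 𝓝 (0 : X), ∃ N : ℕ, ∀ i ≥ N, ∀ j ≥ N, s i - s j ∈ U) →
    ∃ x : X, Tendsto s atTop (𝓝 x)

/-- A Fréchet algebra: an associative, possibly non-unital algebra over `ℂ` whose underlying
space is a Fréchet space and whose multiplication is jointly continuous. -/
structure FrechetAlgebra where
  /-- the underlying space -/
  carrier : Type
  [ring : NonUnitalRing carrier]
  [module : Module ℂ carrier]
  [topologicalSpace : TopologicalSpace carrier]
  isFrechet : IsFrechet carrier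
  smul_mul : ∀ (c : ℂ) (a b : carrier), (c • a) * b = c • (a * b)
  mul_smul : ∀ (c : ℂ) (a b : carrier), a * (c • b) = c • (a * b)
  continuous_mul : Continuous fun p : carrier × carrier => p.1 * p.2

attribute [instance] FrechetAlgebra.ring FrechetAlgebra.module FrechetAlgebra.topologicalSpace

/-- A Fréchet (left) module over the algebra `A` with a topology: a Fréchet space with a jointly
continuous bilinear action of `A` which is compatible with the multiplication of `A`. -/
structure FrechetModule (A : Type v) [NonUnitalRing A] [Module ℂ A] [TopologicalSpace A] where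
  /-- the underlying space -/
  carrier : Type u
  [addCommGroup : AddCommGroup carrier]
  [module : Module ℂ carrier]
  [topologicalSpace : TopologicalSpace carrier]
  isFrechet : IsFrechet carrier
  /-- the action -/
  act : A → carrier → carrier
  add_act : ∀ a b x, act (a + b) x = act a x + act b x
  act_add : ∀ a x y, act a (x + y) = act a x + act a y
  smul_act : ∀ (c : ℂ) a x, act (c • a) x = c • act a x
  act_smul : ∀ (c : ℂ) a x, act a (c • x) = c • act a x
  mul_act : ∀ a b x, act (a * b) x = act a (act b x)
  continuous_act : Continuous fun p : A × carrier => act p.1 p.2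

attribute [instance] FrechetModule.addCommGroup FrechetModule.module
  FrechetModule.topologicalSpace

section

variable {A : Type v} [NonUnitalRing A] [Module ℂ A] [TopologicalSpace A]

/-- A continuous linear map between Fréchet modules is a morphism if it is `A`-linear. -/
def IsMorphism (X Y : FrechetModule.{u} A) (f : X.carrier →L[ℂ] Y.carrier) : Prop :=
  ∀ (a : A) (x : X.carrier), f (X.act a x) = Y.act a (f x)

/-- `X` is injective in the category of the Fréchet modules with the property `P`: every
morphism `φ : X → Y` to a module `Y` with `P Y` that has a continuous linear left inverse has a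
continuous `A`-linear left inverse. -/
def IsInjective (P : FrechetModule.{u} A → Prop) (X : FrechetModule.{u} A) : Prop :=
  ∀ (Y : FrechetModule.{u} A), P Y → ∀ φ : X.carrier →L[ℂ] Y.carrier, IsMorphism X Y φ →
    (∃ l : Y.carrier →L[ℂ] X.carrier, ∀ x, l (φ x) = x) →
    ∃ ψ : Y.carrier →L[ℂ] X.carrier, IsMorphism Y X ψ ∧ ∀ x, ψ (φ x) = x

end

theorem IsFrechet.prod {X : Type u} {Y : Type v} [AddCommGroup X] [Module ℂ X]
    [TopologicalSpace X] [AddCommGroup Y] [Module ℂ Y] [TopologicalSpace Y]
    (hX : IsFrechet X) (hY : IsFrechet Y) : IsFrechet (X × Y) := by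
  have := hX.topologicalAddGroup
  have := hX.continuousSMul
  have := hX.t2
  have := hX.firstCountable
  have := hX.locallyConvex
  have := hY.topologicalAddGroup
  have := hY.continuousSMul
  have := hY.t2
  have := hY.firstCountable
  have := hY.locallyConvex
  refine ⟨inferInstance, inferInstance, inferInstance, inferInstance, inferInstance, ?_⟩
  intro s hs
  have h1 : ∃ x : X, Tendsto (fun n => (s n).1) atTop (𝓝 x) := by
    refine hX.complete _ fun U hU => ?_
    obtain ⟨N, hN⟩ := hs (Prod.fst ⁻¹' U) (continuous_fst.continuousAt hU)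
    exact ⟨N, fun i hi j hj => hN i hi j hj⟩
  have h2 : ∃ y : Y, Tendsto (fun n => (s n).2) atTop (𝓝 y) := by
    refine hY.complete _ fun U hU => ?_
    obtain ⟨N, hN⟩ := hs (Prod.snd ⁻¹' U) (continuous_snd.continuousAt hU)
    exact ⟨N, fun i hi j hj => hN i hi j hj⟩
  obtain ⟨x, hx⟩ := h1
  obtain ⟨y, hy⟩ := h2
  exact ⟨(x, y), hx.prodMk_nhds hy⟩

theorem isFrechet_complex : IsFrechet ℂ := by
  refine ⟨inferInstance, inferInstance, inferInstance, inferInstance, inferInstance, ?_⟩
  intro s hs
  apply cauchySeq_tendsto_of_complete
  rw [Metric.cauchySeq_iff]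
  intro ε hε
  obtain ⟨N, hN⟩ := hs (Metric.ball 0 ε) (Metric.ball_mem_nhds 0 hε)
  refine ⟨N, fun i hi j hj => ?_⟩
  have := hN i hi j hj
  rwa [mem_ball_zero_iff, ← dist_eq_norm] at this

theorem isFrechet_pi (ι : Type v) [Countable ι] : IsFrechet (ι → ℂ) := by
  refine ⟨inferInstance, inferInstance, inferInstance, inferInstance, ?_, ?_⟩
  · have h : (inferInstance : TopologicalSpace (ι → ℂ)) =
        ⨅ i, TopologicalSpace.induced (fun f : ι → ℂ => f i) inferInstance := rfl
    have : ∀ i : ι, @LocallyConvexSpace ℝ (ι → ℂ) _ _ _ _
        (TopologicalSpace.induced (fun f : ι → ℂ => f i) inferInstance) := fun i =>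
      LocallyConvexSpace.induced (LinearMap.proj (R := ℝ) (φ := fun _ : ι => ℂ) i)
    exact LocallyConvexSpace.iInf this
  · intro s hs
    have h : ∀ i, ∃ x : ℂ, Tendsto (fun n => s n i) atTop (𝓝 x) := by
      intro i
      refine isFrechet_complex.complete _ fun U hU => ?_
      obtain ⟨N, hN⟩ := hs ((fun f : ι → ℂ => f i) ⁻¹' U)
        ((continuous_apply i).continuousAt hU)
      exact ⟨N, fun m hm j hj => hN m hm j hj⟩
    choose x hx using h
    exact ⟨x, tendsto_pi_nhds.2 hx⟩

end Pool.Agent.Y245.FI
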